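import Pool.Agent.Q259.MW.Maj

/-!
# The block system
-/

set_option autoImplicit false
set_option linter.unusedSectionVars false

open scoped Classical
open Finset

noncomputable section

namespace Pool.Agent.Q259.MW

section main

variable {V : Type} [Fintype V] {Γ : SimpleGraph V} {G : Type} [Group G] [Fintype G]
  [MulAction G V] {n : ℕ} {a : V → Fin n} {h H : ℝ}
  (hadj : ∀ (g : G) (u v : V), Γ.Adj (g • u) (g • v) ↔ Γ.Adj u v)
  (htr : ∀ u v : V, ∃ g : G, g • u = v) (hy : Hyp Γ n a h H)

include htr in
/-- there are `n` classes -/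
lemma card_KK : Nat.card (KK hadj hy) = n := by
  have : Finite (KK hadj hy) := inferInstance
  let _ : Fintype (KK hadj hy) := Fintype.ofFinite _
  have h0 := hy.h0
  have hgap := hy.gap
  have hH : 0 < H := by linarith
  rw [Nat.card_eq_fintype_card]
  apply le_antisymm
  · by_contra hlt
    push Not at hlt
    -- merge the classes to `n + 1` parts
    have hc : Fintype.card (Fin (n + 1)) ≤ Fintype.card (KK hadj hy) := by
      rw [Fintype.card_fin]
      exact hlt
    obtain ⟨e⟩ := Function.Embedding.nonempty_of_card_le hc
    obtain ⟨f, hf⟩ : ∃ f : KK hadj hy → Fin (n + 1), Function.Surjective f :=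
      ⟨Function.invFun e, Function.invFun_surjective e.injective⟩
    obtain ⟨k, hk⟩ := hy.high (Fin (n + 1)) (Fintype.card_fin _) (f ∘ mj hadj htr hy)
      (hf.comp (mj_surj hadj htr hy))
    have h1 : (bd Γ (fib (f ∘ mj hadj htr hy) k) : ℝ) ≤ 3 * h * (fib (f ∘ mj hadj htr hy) k).card := by
      rw [bd_eq_sum]
      push_cast
      rw [mul_comm, ← nsmul_eq_mul]
      refine sum_le_card_nsmul _ _ _ fun u hu => ?_
      refine le_trans ?_ (out_le hadj htr hy u)
      have : dg Γ (fun _ v => v ∉ fib (f ∘ mj hadj htr hy) k) u ≤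
          dg Γ (fun u v => mj hadj htr hy v ≠ mj hadj htr hy u) u := by
        refine dg_mono fun v hv h' => hv ?_
        rw [mem_fib] at hu ⊢
        change f (mj hadj htr hy v) = k
        rw [h']
        exact hu
      exact_mod_cast this
    have h2 : (0 : ℝ) < (fib (f ∘ mj hadj htr hy) k).card := by
      exact_mod_cast fib_pos (hf.comp (mj_surj hadj htr hy)) k
    nlinarith
  · have h1 : Function.Injective fun i : Fin n =>
        (Quotient.mk _ ((1 : G), i) : KK hadj hy) := by
      intro i j hij
      have := Quotient.eq (r := cls hadj hy) |>.mp hij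
      exact rel_same this
    have := Fintype.card_le_of_injective _ h1
    rwa [Fintype.card_fin] at this

include hadj htr hy in
/-- there is a system of imprimitivity of size `n` with small boundaries -/
theorem exists_system : ∃ b : V → Fin n, Function.Surjective b ∧
    (∀ (g : G) (u v : V), b (g • u) = b (g • v) ↔ b u = b v) ∧
    ∀ u, (dg Γ (fun u v => b v ≠ b u) u : ℝ) ≤ 3 * h := by
  have : Finite (KK hadj hy) := inferInstance
  let _ : Fintype (KK hadj hy) := Fintype.ofFinite _
  have hc := card_KK hadj htr hy
  rw [Nat.card_eq_fintype_card] at hc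
  let e : KK hadj hy ≃ Fin n := Fintype.equivFinOfCardEq hc
  refine ⟨fun v => e (mj hadj htr hy v), e.surjective.comp (mj_surj hadj htr hy), ?_, ?_⟩
  · intro g u v
    rw [e.apply_eq_iff_eq, e.apply_eq_iff_eq]
    exact mj_smul_eq hadj htr hy g u v
  · intro u
    have := out_le hadj htr hy u
    simpa only [ne_eq, e.apply_eq_iff_eq] using this

end main

end Pool.Agent.Q259.MW
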