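import Pool.Agent.Q259.MW.Cut

/-!
# The classes of translates of the parts of a partition with small boundaries
-/

set_option autoImplicit false

open scoped Classical
open Finset

noncomputable section

namespace Pool.Agent.Q259.MW

/-- the part of the partition `c` with index `i` -/
def fib {V ι : Type} [Fintype V] (c : V → ι) (i : ι) : Finset V := univ.filter fun v => c v = i

lemma mem_fib {V ι : Type} [Fintype V] {c : V → ι} {i : ι} {v : V} : v ∈ fib c i ↔ c v = i := by
  unfold fib
  rw [mem_filter]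
  exact and_iff_right (mem_univ _)

lemma fib_pos {V ι : Type} [Fintype V] {c : V → ι} (hc : Function.Surjective c) (i : ι) :
    0 < (fib c i).card := by
  obtain ⟨v, hv⟩ := hc i
  exact card_pos.mpr ⟨v, mem_fib.mpr hv⟩

lemma sum_card_fib {V ι : Type} [Fintype V] [Fintype ι] (c : V → ι) :
    ∑ i, (fib c i).card = Fintype.card V := by
  rw [← card_univ]
  exact (card_eq_sum_card_fiberwise (fun v _ => mem_univ (c v))).symm

/-- Every partition into `n + 1` parts has a part `C` with `H * |C| ≤ |∂C|`. -/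
def High {V : Type} [Fintype V] (Γ : SimpleGraph V) (n : ℕ) (H : ℝ) : Prop :=
  ∀ (κ : Type) [Fintype κ], Fintype.card κ = n + 1 → ∀ c : V → κ, Function.Surjective c →
    ∃ k, H * ((fib c k).card : ℝ) ≤ bd Γ (fib c k)

lemma split {V : Type} [Fintype V] {Γ : SimpleGraph V} {n : ℕ} {H : ℝ} (hH : High Γ n H)
    {ι : Type} [Fintype ι] (hι : Fintype.card ι = n) {b : V → ι} (hb : Function.Surjective b)
    {l : ℝ} (low : ∀ i, (bd Γ (fib b i) : ℝ) ≤ l * (fib b i).card) (hl : l < H) (i : ι)
    (T : Finset V) :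
    H * ((fib b i ∩ T).card : ℝ) ≤ bd Γ (fib b i ∩ T) ∨
      H * ((fib b i \ T).card : ℝ) ≤ bd Γ (fib b i \ T) := by
  rcases (fib b i ∩ T).eq_empty_or_nonempty with h1 | h1
  · left
    rw [h1, bd_empty]
    simp
  rcases (fib b i \ T).eq_empty_or_nonempty with h2 | h2
  · right
    rw [h2, bd_empty]
    simp
  obtain ⟨x, hx⟩ := h1
  obtain ⟨y, hy⟩ := h2
  rw [mem_inter, mem_fib] at hx
  rw [mem_sdiff, mem_fib] at hy
  let c : V → Option ι := fun v => if b v = i ∧ v ∈ T then none else some (b v)
  have c0 : ∀ v, c v = none ↔ b v = i ∧ v ∈ T := by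
    intro v
    by_cases h : b v = i ∧ v ∈ T
    · exact ⟨fun _ => h, fun _ => if_pos h⟩
    · exact ⟨fun h' => absurd ((if_neg h).symm.trans h') (Option.some_ne_none _), fun h' => absurd h' h⟩
  have c1 : ∀ v j, c v = some j ↔ b v = j ∧ ¬ (b v = i ∧ v ∈ T) := by
    intro v j
    by_cases h : b v = i ∧ v ∈ T
    · have : c v = none := (c0 v).mpr h
      rw [this]
      simp [h]
    · have : c v = some (b v) := if_neg h
      rw [this, Option.some_inj]
      exact ⟨fun h' => ⟨h', h⟩, fun h' => h'.1⟩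
  have hc : Function.Surjective c := by
    rintro (_ | j)
    · exact ⟨x, (c0 x).mpr hx⟩
    · rcases eq_or_ne j i with rfl | hj
      · exact ⟨y, (c1 y j).mpr ⟨hy.1, fun h => hy.2 h.2⟩⟩
      · obtain ⟨v, rfl⟩ := hb j
        exact ⟨v, (c1 v _).mpr ⟨rfl, fun h => hj h.1⟩⟩
  obtain ⟨k, hk⟩ := hH (Option ι) (by rw [Fintype.card_option, hι]) c hc
  rcases k with _ | j
  · have e : fib c none = fib b i ∩ T := by
      ext v
      rw [mem_fib, c0, mem_inter, mem_fib]
    rw [e] at hk
    exact Or.inl hk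
  · rcases eq_or_ne j i with rfl | hj
    · have e : fib c (some j) = fib b j \ T := by
        ext v
        rw [mem_fib, c1, mem_sdiff, mem_fib]
        tauto
      rw [e] at hk
      exact Or.inr hk
    · exfalso
      have e : fib c (some j) = fib b j := by
        ext v
        rw [mem_fib, c1, mem_fib]
        refine ⟨fun h => h.1, fun h => ⟨h, fun h' => hj (h.symm.trans h'.1)⟩⟩
      rw [e] at hk
      have h3 := low j
      have h4 : (0 : ℝ) < (fib b j).card := by exact_mod_cast fib_pos hb j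
      nlinarith

/-- the hypotheses on the partition `a` -/
structure Hyp {V : Type} [Fintype V] (Γ : SimpleGraph V) (n : ℕ) (a : V → Fin n) (h H : ℝ) :
    Prop where
  surj : Function.Surjective a
  low : ∀ i, (bd Γ (fib a i) : ℝ) ≤ h * (fib a i).card
  high : High Γ n H
  h0 : 0 ≤ h
  gap : 6 * h < H

lemma arith {H h s t u xy yz xz : ℝ} (h0 : 0 ≤ h) (gap : 6 * h < H) (hs : 0 < s)
    (hu : 0 < u) (h1 : H * xz ≤ h * (s + u)) (h2 : (H - h) * (s + t) ≤ 2 * H * xy)
    (h3 : (H - h) * (t + u) ≤ 2 * H * yz) (h4 : xy + yz - t ≤ xz)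
    (h5 : H * (t - s) ≤ h * (s + t)) (h6 : H * (t - u) ≤ h * (t + u)) : False := by
  have hH : 0 < H := by linarith
  have h7 : H * (xy + yz - t) ≤ H * xz := mul_le_mul_of_nonneg_left h4 hH.le
  have a1 : (H - 3 * h) * (s + u) ≤ 2 * h * t := by nlinarith
  have a2 : 2 * (H - h) * t ≤ (H + h) * (s + u) := by nlinarith
  have a3 : (H - h) * ((H - 3 * h) * (s + u)) ≤ (H - h) * (2 * h * t) :=
    mul_le_mul_of_nonneg_left a1 (by linarith)
  have a4 : h * (2 * (H - h) * t) ≤ h * ((H + h) * (s + u)) := mul_le_mul_of_nonneg_left a2 h0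
  have a5 : (H * (H - 5 * h) + 2 * h ^ 2) * (s + u) ≤ 0 := by nlinarith
  have a6 : 0 < H * (H - 5 * h) + 2 * h ^ 2 := by
    have : 0 < H * (H - 5 * h) := mul_pos hH (by linarith)
    positivity
  have a7 := mul_pos a6 (add_pos hs hu)
  linarith

section main

variable {V : Type} [Fintype V] {Γ : SimpleGraph V} {G : Type} [Group G] [MulAction G V]
  {n : ℕ} {a : V → Fin n} {h H : ℝ}

/-- the translates of the parts -/
def St (a : V → Fin n) (x : G × Fin n) : Finset V := tr x.1 (fib a x.2)

lemma mem_St {x : G × Fin n} {v : V} : v ∈ St a x ↔ a (x.1⁻¹ • v) = x.2 := by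
  unfold St
  rw [mem_tr, mem_fib]

variable (hadj : ∀ (g : G) (u v : V), Γ.Adj (g • u) (g • v) ↔ Γ.Adj u v)
  (hy : Hyp Γ n a h H)

include hadj hy in
lemma split_tr (x : G × Fin n) (T : Finset V) :
    H * ((St a x ∩ T).card : ℝ) ≤ bd Γ (St a x ∩ T) ∨
      H * ((St a x \ T).card : ℝ) ≤ bd Γ (St a x \ T) := by
  have e : T = tr x.1 (tr x.1⁻¹ T) := by rw [tr_tr, mul_inv_cancel, tr_one]
  have hl : h < H := by
    have := hy.h0
    have := hy.gap
    linarith
  have h1 := split hy.high (Fintype.card_fin n) hy.surj hy.low hl x.2 (tr x.1⁻¹ T)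
  rw [e, St, ← tr_inter, ← tr_sdiff, card_tr, card_tr, bd_tr hadj, bd_tr hadj]
  exact h1

include hadj hy in
lemma bd_St (x : G × Fin n) : (bd Γ (St a x) : ℝ) ≤ h * (St a x).card := by
  rw [St, card_tr, bd_tr hadj]
  exact hy.low x.2

include hy in
lemma St_pos (x : G × Fin n) : (0 : ℝ) < (St a x).card := by
  rw [St, card_tr]
  exact_mod_cast fib_pos hy.surj x.2

/-- Two translates of parts are equivalent if the boundary of their intersection is small. -/
def Rel (Γ : SimpleGraph V) (a : V → Fin n) (H : ℝ) (x y : G × Fin n) : Prop :=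
  (bd Γ (St a x ∩ St a y) : ℝ) < H * (St a x ∩ St a y).card

lemma rel_symm {x y : G × Fin n} (hr : Rel Γ a H x y) : Rel Γ a H y x := by
  unfold Rel at hr ⊢
  rwa [inter_comm]

include hadj hy in
lemma rel_refl (x : G × Fin n) : Rel Γ a H x x := by
  unfold Rel
  rw [inter_self]
  have h1 := bd_St hadj hy x
  have h2 := St_pos hy x
  have := hy.h0
  have := hy.gap
  nlinarith

include hadj hy in
lemma rel_sdiff {x y : G × Fin n} (hr : Rel Γ a H x y) :
    H * ((St a x \ St a y).card : ℝ) ≤ bd Γ (St a x \ St a y) := by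
  rcases split_tr hadj hy x (St a y) with h1 | h1
  · exact absurd hr (not_lt.mpr h1)
  · exact h1

include hadj hy in
lemma rel_two {x y : G × Fin n} (hr : Rel Γ a H x y) :
    (H - h) * ((St a x).card + (St a y).card) ≤ 2 * H * (St a x ∩ St a y).card := by
  have h1 := rel_sdiff hadj hy hr
  have h2 := rel_sdiff hadj hy (rel_symm hr)
  have h3 : (bd Γ (St a x \ St a y) : ℝ) + bd Γ (St a y \ St a x) ≤
      bd Γ (St a x) + bd Γ (St a y) := by exact_mod_cast bd_sdiff (St a x) (St a y)
  have h4 := bd_St hadj hy x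
  have h5 := bd_St hadj hy y
  have h6 : ((St a x \ St a y).card : ℝ) + (St a x ∩ St a y).card = (St a x).card := by
    exact_mod_cast card_sdiff_add_card_inter (St a x) (St a y)
  have h7 : ((St a y \ St a x).card : ℝ) + (St a x ∩ St a y).card = (St a y).card := by
    rw [inter_comm]
    exact_mod_cast card_sdiff_add_card_inter (St a y) (St a x)
  rw [← h6] at h4
  rw [← h7] at h5
  rw [← h6, ← h7]
  nlinarith

include hadj hy in
lemma rel_trans {x y z : G × Fin n} (h1 : Rel Γ a H x y) (h2 : Rel Γ a H y z) :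
    Rel Γ a H x z := by
  by_contra hcon
  unfold Rel at hcon
  rw [not_lt] at hcon
  have h3 := rel_two hadj hy h1
  have h4 := rel_two hadj hy h2
  have h5 : (bd Γ (St a x ∩ St a z) : ℝ) ≤ bd Γ (St a x) + bd Γ (St a z) := by
    exact_mod_cast bd_inter (St a x) (St a z)
  have h6 := bd_St hadj hy x
  have h7 := bd_St hadj hy z
  have h8 : ((St a x ∩ St a y).card : ℝ) + (St a y ∩ St a z).card - (St a y).card ≤
      (St a x ∩ St a z).card := by
    have e1 := card_union_add_card_inter (St a x ∩ St a y) (St a y ∩ St a z)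
    have e2 : ((St a x ∩ St a y) ∪ (St a y ∩ St a z)).card ≤ (St a y).card :=
      card_le_card (union_subset inter_subset_right inter_subset_left)
    have e3 : ((St a x ∩ St a y) ∩ (St a y ∩ St a z)).card ≤ (St a x ∩ St a z).card :=
      card_le_card fun v hv => by
        rw [mem_inter, mem_inter, mem_inter] at hv
        rw [mem_inter]
        exact ⟨hv.1.1, hv.2.2⟩
    have e4 : (St a x ∩ St a y).card + (St a y ∩ St a z).card ≤
        (St a y).card + (St a x ∩ St a z).card := by omega
    have e5 : ((St a x ∩ St a y).card : ℝ) + (St a y ∩ St a z).card ≤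
        (St a y).card + (St a x ∩ St a z).card := by exact_mod_cast e4
    linarith
  have h9 : ((St a x ∩ St a y).card : ℝ) ≤ (St a x).card := by
    exact_mod_cast card_le_card inter_subset_left
  have h10 : ((St a y ∩ St a z).card : ℝ) ≤ (St a z).card := by
    exact_mod_cast card_le_card inter_subset_right
  have hH : 0 < H := by
    have := hy.h0
    have := hy.gap
    linarith
  refine arith hy.h0 hy.gap (St_pos hy x) (St_pos hy z) ?_ h3 h4 h8 ?_ ?_
  · nlinarith
  · nlinarith
  · nlinarith

/-- the equivalence relation -/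
def cls : Setoid (G × Fin n) where
  r := Rel Γ a H
  iseqv := ⟨rel_refl hadj hy, rel_symm, rel_trans hadj hy⟩

lemma St_mul (g : G) (x : G × Fin n) : St a (g * x.1, x.2) = tr g (St a x) := by
  unfold St
  rw [tr_tr]

include hadj in
lemma rel_mul (g : G) {x y : G × Fin n} (hr : Rel Γ a H x y) :
    Rel Γ a H (g * x.1, x.2) (g * y.1, y.2) := by
  unfold Rel at hr ⊢
  rw [St_mul, St_mul, ← tr_inter, bd_tr hadj, card_tr]
  exact hr

/-- the type of classes -/
abbrev KK : Type := Quotient (cls hadj hy)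

/-- the action on the classes -/
def ak (g : G) : KK hadj hy → KK hadj hy :=
  Quotient.map (fun x => (g * x.1, x.2)) fun _ _ hr => rel_mul hadj g hr

lemma ak_mul (g k : G) (x : KK hadj hy) : ak hadj hy g (ak hadj hy k x) = ak hadj hy (g * k) x := by
  induction x using Quotient.inductionOn with
  | _ x =>
    change Quotient.mk _ (g * (k * x.1), x.2) = Quotient.mk _ (g * k * x.1, x.2)
    rw [mul_assoc]

lemma ak_one (x : KK hadj hy) : ak hadj hy 1 x = x := by
  induction x using Quotient.inductionOn with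
  | _ x =>
    change Quotient.mk _ (1 * x.1, x.2) = Quotient.mk _ x
    rw [one_mul]

lemma ak_inj (g : G) : Function.Injective (ak hadj hy g) := by
  intro x y h
  have := congrArg (ak hadj hy g⁻¹) h
  rwa [ak_mul, ak_mul, inv_mul_cancel, ak_one, ak_one] at this

/-- the class of the part of the translate by `g` which contains `v` -/
def lab (g : G) (v : V) : KK hadj hy := Quotient.mk _ (g, a (g⁻¹ • v))

lemma lab_eq_mk {g : G} {v : V} {x : G × Fin n} :
    lab hadj hy g v = Quotient.mk _ x ↔ Rel Γ a H (g, a (g⁻¹ • v)) x :=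
  Quotient.eq (r := cls hadj hy)

lemma rel_same {g : G} {i j : Fin n} (hr : Rel Γ a H (g, i) (g, j)) : i = j := by
  by_contra hne
  unfold Rel at hr
  have : St a (g, i) ∩ St a (g, j) = ∅ := by
    rw [eq_empty_iff_forall_notMem]
    intro v hv
    rw [mem_inter, mem_St, mem_St] at hv
    exact hne (hv.1.symm.trans hv.2)
  rw [this, bd_empty] at hr
  simp at hr

lemma lab_same {g : G} {u v : V} :
    lab hadj hy g u = lab hadj hy g v ↔ a (g⁻¹ • u) = a (g⁻¹ • v) := by
  unfold lab
  constructor
  · intro h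
    exact rel_same ((lab_eq_mk hadj hy).mp h)
  · intro h
    rw [h]

lemma lab_mul (k g : G) (v : V) :
    lab hadj hy (k * g) (k • v) = ak hadj hy k (lab hadj hy g v) := by
  unfold lab
  rw [mul_inv_rev, mul_smul, inv_smul_smul]
  rfl

end main

end Pool.Agent.Q259.MW
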