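import Mathlib

/-!
# Counting boundary edges
-/

set_option autoImplicit false

open scoped Classical
open Finset

noncomputable section

namespace Pool.Agent.Q259.MW

section cnt

variable {V : Type} [Fintype V] (Γ : SimpleGraph V)

/-- The number of ordered pairs of adjacent vertices with property `p`. -/
def cnt (p : V → V → Prop) : ℕ :=
  (univ.filter fun x : V × V => Γ.Adj x.1 x.2 ∧ p x.1 x.2).card

/-- The number of edges with exactly one end in `S`, counted as pairs `(u, v)` of adjacent vertices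
with `u ∈ S` and `v ∉ S`. -/
def bd (S : Finset V) : ℕ := cnt Γ fun u v => u ∈ S ∧ v ∉ S

/-- The number of neighbours `v` of `u` with property `p u v`. -/
def dg (p : V → V → Prop) (u : V) : ℕ := (univ.filter fun v => Γ.Adj u v ∧ p u v).card

variable {Γ}

lemma cnt_mono {p q : V → V → Prop} (h : ∀ u v, p u v → q u v) : cnt Γ p ≤ cnt Γ q :=
  card_le_card fun x hx => by
    rw [mem_filter] at hx ⊢
    exact ⟨hx.1, hx.2.1, h _ _ hx.2.2⟩

lemma cnt_swap (p : V → V → Prop) : cnt Γ (fun u v => p v u) = cnt Γ p := by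
  unfold cnt
  refine card_bij (fun x _ => (x.2, x.1)) ?_ ?_ ?_
  · intro x hx
    rw [mem_filter] at hx ⊢
    exact ⟨mem_univ _, hx.2.1.symm, hx.2.2⟩
  · rintro ⟨a, b⟩ _ ⟨c, d⟩ _ h
    simp only [Prod.mk.injEq] at h ⊢
    exact ⟨h.2, h.1⟩
  · rintro ⟨a, b⟩ hx
    rw [mem_filter] at hx
    exact ⟨(b, a), by rw [mem_filter]; exact ⟨mem_univ _, hx.2.1.symm, hx.2.2⟩, rfl⟩

lemma cnt_add {p q : V → V → Prop} (h : ∀ u v, p u v → ¬ q u v) :
    cnt Γ p + cnt Γ q = cnt Γ fun u v => p u v ∨ q u v := by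
  unfold cnt
  rw [← card_union_of_disjoint]
  · congr 1
    ext x
    simp only [mem_union, mem_filter, mem_univ, true_and]
    tauto
  · rw [disjoint_left]
    intro x hx hy
    rw [mem_filter] at hx hy
    exact h _ _ hx.2.2 hy.2.2

lemma cnt_or_le (p q : V → V → Prop) : (cnt Γ fun u v => p u v ∨ q u v) ≤ cnt Γ p + cnt Γ q := by
  unfold cnt
  refine le_trans (card_le_card ?_) (card_union_le _ _)
  intro x hx
  simp only [mem_union, mem_filter, mem_univ, true_and] at hx ⊢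
  tauto

lemma cnt_eq_sum (S : Finset V) (p : V → V → Prop) :
    (cnt Γ fun u v => u ∈ S ∧ p u v) = ∑ u ∈ S, dg Γ p u := by
  unfold cnt dg
  rw [← card_sigma]
  refine card_bij (fun x _ => ⟨x.1, x.2⟩) ?_ ?_ ?_
  · intro x hx
    simp only [mem_filter, mem_univ, true_and, mem_sigma] at hx ⊢
    tauto
  · rintro ⟨a, b⟩ _ ⟨c, d⟩ _ h
    simpa using h
  · rintro ⟨a, b⟩ hx
    simp only [mem_sigma, mem_filter, mem_univ, true_and] at hx
    refine ⟨(a, b), ?_, rfl⟩
    simp only [mem_filter, mem_univ, true_and]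
    tauto

lemma cnt_eq_sum_univ (p : V → V → Prop) : cnt Γ p = ∑ u, dg Γ p u := by
  rw [← cnt_eq_sum univ p]
  simp only [mem_univ, true_and]

lemma dg_mono {p q : V → V → Prop} {u : V} (h : ∀ v, p u v → q u v) : dg Γ p u ≤ dg Γ q u :=
  card_le_card fun x hx => by
    rw [mem_filter] at hx ⊢
    exact ⟨hx.1, hx.2.1, h _ hx.2.2⟩

lemma dg_or_le (p q : V → V → Prop) (u : V) :
    dg Γ (fun u v => p u v ∨ q u v) u ≤ dg Γ p u + dg Γ q u := by
  unfold dg
  refine le_trans (card_le_card ?_) (card_union_le _ _)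
  intro x hx
  simp only [mem_union, mem_filter, mem_univ, true_and] at hx ⊢
  tauto

lemma bd_eq_sum (S : Finset V) : bd Γ S = ∑ u ∈ S, dg Γ (fun _ v => v ∉ S) u :=
  cnt_eq_sum S _

lemma bd_empty : bd Γ ∅ = 0 := by
  rw [bd_eq_sum, sum_empty]

/-- submodularity, in a weak form -/
lemma bd_inter (S T : Finset V) : bd Γ (S ∩ T) ≤ bd Γ S + bd Γ T := by
  refine le_trans (cnt_mono (q := fun u v => (u ∈ S ∧ v ∉ S) ∨ (u ∈ T ∧ v ∉ T)) ?_)
    (cnt_or_le _ _)
  intro u v
  rw [mem_inter, mem_inter]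
  tauto

/-- posimodularity -/
lemma bd_sdiff (S T : Finset V) : bd Γ (S \ T) + bd Γ (T \ S) ≤ bd Γ S + bd Γ T := by
  have key : ∀ S T : Finset V, bd Γ (S \ T) = (cnt Γ fun u v => u ∈ S ∧ u ∉ T ∧ v ∉ S) +
      cnt Γ fun u v => u ∈ S ∧ u ∈ T ∧ v ∈ S ∧ v ∉ T := by
    intro S T
    rw [← cnt_swap (fun u v => u ∈ S ∧ u ∈ T ∧ v ∈ S ∧ v ∉ T), cnt_add]
    · unfold bd
      congr 1
      funext u v
      rw [mem_sdiff, mem_sdiff]
      apply propext
      tauto
    · intro u v
      tauto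
  have key2 : ∀ S T : Finset V, (cnt Γ fun u v => u ∈ S ∧ u ∉ T ∧ v ∉ S) +
      (cnt Γ fun u v => u ∈ T ∧ u ∈ S ∧ v ∈ T ∧ v ∉ S) ≤ bd Γ S := by
    intro S T
    rw [cnt_add]
    · apply cnt_mono
      intro u v
      tauto
    · intro u v
      tauto
  have h1 := key S T
  have h2 := key T S
  have h3 := key2 S T
  have h4 := key2 T S
  omega

end cnt

section act

variable {V : Type} [Fintype V] {Γ : SimpleGraph V} {G : Type} [Group G] [MulAction G V]
  (hadj : ∀ (g : G) (u v : V), Γ.Adj (g • u) (g • v) ↔ Γ.Adj u v)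

include hadj in
lemma dg_smul (p : V → V → Prop) (g : G) (u : V) :
    dg Γ p (g • u) = dg Γ (fun u v => p (g • u) (g • v)) u := by
  unfold dg
  symm
  refine card_bij (fun v _ => g • v) ?_ ?_ ?_
  · intro v hv
    rw [mem_filter] at hv ⊢
    exact ⟨mem_univ _, (hadj g u v).mpr hv.2.1, hv.2.2⟩
  · intro v _ w _ h
    exact MulAction.injective g h
  · intro v hv
    rw [mem_filter] at hv
    refine ⟨g⁻¹ • v, ?_, smul_inv_smul g v⟩
    rw [mem_filter, ← hadj g, smul_inv_smul]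
    refine ⟨mem_univ _, hv.2.1, ?_⟩
    change p (g • u) (g • g⁻¹ • v)
    rw [smul_inv_smul]
    exact hv.2.2

/-- the translate of a finite set -/
def tr (g : G) (X : Finset V) : Finset V := univ.filter fun v => g⁻¹ • v ∈ X

lemma mem_tr {g : G} {X : Finset V} {v : V} : v ∈ tr g X ↔ g⁻¹ • v ∈ X := by
  unfold tr
  rw [mem_filter]
  exact and_iff_right (mem_univ _)

lemma tr_inter (g : G) (X Y : Finset V) : tr g (X ∩ Y) = tr g X ∩ tr g Y := by
  ext v
  simp only [mem_tr, mem_inter]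

lemma tr_sdiff (g : G) (X Y : Finset V) : tr g (X \ Y) = tr g X \ tr g Y := by
  ext v
  simp only [mem_tr, mem_sdiff]

lemma tr_tr (g g' : G) (X : Finset V) : tr g (tr g' X) = tr (g * g') X := by
  ext v
  simp only [mem_tr, mul_inv_rev, mul_smul]

lemma tr_one (X : Finset V) : tr (1 : G) X = X := by
  ext v
  simp only [mem_tr, inv_one, one_smul]

lemma sum_tr {M : Type} [AddCommMonoid M] (g : G) (X : Finset V) (f : V → M) :
    ∑ v ∈ tr g X, f v = ∑ v ∈ X, f (g • v) := by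
  symm
  refine sum_bij (fun v _ => g • v) ?_ ?_ ?_ ?_
  · intro v hv
    rw [mem_tr, inv_smul_smul]
    exact hv
  · intro v _ w _ h
    exact MulAction.injective g h
  · intro v hv
    rw [mem_tr] at hv
    exact ⟨g⁻¹ • v, hv, smul_inv_smul g v⟩
  · intro v _
    rfl

lemma card_tr (g : G) (X : Finset V) : (tr g X).card = X.card := by
  rw [card_eq_sum_ones, sum_tr, card_eq_sum_ones]

include hadj in
lemma bd_tr (g : G) (X : Finset V) : bd Γ (tr g X) = bd Γ X := by
  rw [bd_eq_sum, bd_eq_sum, sum_tr]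
  refine sum_congr rfl fun u _ => ?_
  rw [dg_smul hadj]
  unfold dg
  congr 1
  ext v
  simp only [mem_filter, mem_tr, inv_smul_smul]

end act

end Pool.Agent.Q259.MW
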