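import Pool.Agent.Q259.MW.Uniq

/-!
# Multi-way isoperimetric constants of vertex-transitive graphs
-/

set_option autoImplicit false
set_option linter.unusedSectionVars false

open scoped Classical
open Finset

noncomputable section

namespace Pool.Agent.Q259.MW

section defs

variable {V : Type} [Fintype V]

/-- The number of edges with exactly one end in `A`. -/
def boundary (Γ : SimpleGraph V) (A : Set V) : ℕ :=
  {e : Sym2 V | e ∈ Γ.edgeSet ∧ ∃ u ∈ A, ∃ v ∉ A, e = s(u, v)}.ncard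

/-- A partition of the vertices into `n` non-empty parts is given by a surjective `c : V → Fin n`;
this is the maximum of `|∂A| / |A|` over its parts `A`. -/
def cost (Γ : SimpleGraph V) {n : ℕ} (c : V → Fin n) : ℝ :=
  ⨆ i : Fin n, (boundary Γ {v | c v = i} : ℝ) / ({v | c v = i}.ncard : ℝ)

/-- The `n`-way isoperimetric constant `h_n(Γ)`: the minimum of `cost` over the partitions into `n`
non-empty parts. -/
def hway (Γ : SimpleGraph V) (n : ℕ) : ℝ :=
  sInf {x | ∃ c : V → Fin n, Function.Surjective c ∧ x = cost Γ c}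

/-- The partition `c` is a realizer of `h_n(Γ)`. -/
def IsRealizer (Γ : SimpleGraph V) {n : ℕ} (c : V → Fin n) : Prop :=
  Function.Surjective c ∧ cost Γ c = hway Γ n

/-- The partition `c` is a system of imprimitivity of size `n` for `Aut(Γ)`: every automorphism maps
each part onto a part. -/
def IsSystem (Γ : SimpleGraph V) {n : ℕ} (c : V → Fin n) : Prop :=
  Function.Surjective c ∧ ∀ (g : Γ ≃g Γ) (i : Fin n), ∃ j : Fin n,
    g '' {v | c v = i} = {v | c v = j}

/-- `Aut(Γ)` is transitive on the vertices. -/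
def VertexTransitive (Γ : SimpleGraph V) : Prop := ∀ u v : V, ∃ g : Γ ≃g Γ, g u = v

end defs

section bridge

variable {V : Type} [Fintype V] {Γ : SimpleGraph V} {n : ℕ}

lemma cnt_eq_ncard (p : V → V → Prop) :
    cnt Γ p = {x : V × V | Γ.Adj x.1 x.2 ∧ p x.1 x.2}.ncard := by
  unfold cnt
  rw [← Set.ncard_coe_finset]
  congr 1
  ext x
  simp only [mem_coe, mem_filter, mem_univ, true_and, Set.mem_ofPred_eq]

lemma boundary_eq (c : V → Fin n) (i : Fin n) :
    boundary Γ {v | c v = i} = bd Γ (fib c i) := by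
  unfold boundary bd
  rw [cnt_eq_ncard]
  symm
  refine Set.ncard_congr (fun x _ => s(x.1, x.2)) ?_ ?_ ?_
  · rintro x ⟨h1, h2, h3⟩
    rw [mem_fib] at h2 h3
    exact ⟨h1, x.1, h2, x.2, h3, rfl⟩
  · rintro x y ⟨h1, h2, h3⟩ ⟨h1', h2', h3'⟩ hxy
    rw [mem_fib] at h2 h3 h2' h3'
    rcases Sym2.eq_iff.mp hxy with ⟨h4, h5⟩ | ⟨h4, h5⟩
    · exact Prod.ext h4 h5
    · exfalso
      exact h3' (h4 ▸ h2)
  · rintro e ⟨he, u, hu, v, hv, rfl⟩
    exact ⟨(u, v), ⟨he, mem_fib.mpr hu, fun h => hv (mem_fib.mp h)⟩, rfl⟩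

lemma ncard_eq (c : V → Fin n) (i : Fin n) : {v | c v = i}.ncard = (fib c i).card := by
  rw [← Set.ncard_coe_finset]
  congr 1
  ext v
  rw [mem_coe, mem_fib]
  rfl

lemma ratio_le_cost (c : V → Fin n) (hc : Function.Surjective c) (i : Fin n) :
    (bd Γ (fib c i) : ℝ) ≤ cost Γ c * (fib c i).card := by
  have h1 : (bd Γ (fib c i) : ℝ) / (fib c i).card ≤ cost Γ c := by
    rw [← boundary_eq, ← ncard_eq]
    exact le_ciSup (f := fun i : Fin n => (boundary Γ {v | c v = i} : ℝ) /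
      ({v | c v = i}.ncard : ℝ)) (Set.finite_range _).bddAbove i
  have h2 : (0 : ℝ) < (fib c i).card := by exact_mod_cast fib_pos hc i
  rwa [div_le_iff₀ h2] at h1

lemma exists_ratio (hn : 0 < n) (c : V → Fin n) (hc : Function.Surjective c) :
    ∃ i, cost Γ c * (fib c i).card = bd Γ (fib c i) := by
  have : Nonempty (Fin n) := ⟨⟨0, hn⟩⟩
  obtain ⟨i, hi⟩ := exists_eq_ciSup_of_finite (f := fun i : Fin n =>
    (boundary Γ {v | c v = i} : ℝ) / ({v | c v = i}.ncard : ℝ))
  refine ⟨i, ?_⟩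
  have h2 : (0 : ℝ) < (fib c i).card := by exact_mod_cast fib_pos hc i
  have h3 : cost Γ c = (bd Γ (fib c i) : ℝ) / (fib c i).card := by
    rw [← boundary_eq, ← ncard_eq]
    exact hi.symm
  rw [h3, div_mul_cancel₀ _ h2.ne']

lemma cost_nonneg (c : V → Fin n) : 0 ≤ cost Γ c :=
  Real.iSup_nonneg fun _ => by positivity

lemma finite_costs : {x | ∃ c : V → Fin n, Function.Surjective c ∧ x = cost Γ c}.Finite := by
  refine (Set.finite_range fun c : V → Fin n => cost Γ c).subset ?_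
  rintro x ⟨c, -, rfl⟩
  exact ⟨c, rfl⟩

lemma hway_le (c : V → Fin n) (hc : Function.Surjective c) : hway Γ n ≤ cost Γ c :=
  csInf_le finite_costs.bddBelow ⟨c, hc, rfl⟩

lemma hway_nonneg : 0 ≤ hway Γ n := by
  apply Real.sInf_nonneg
  rintro x ⟨c, -, rfl⟩
  exact cost_nonneg c

lemma exists_realizer (hn : 0 < n) (hV : n ≤ Fintype.card V) :
    ∃ c : V → Fin n, IsRealizer Γ c := by
  have h1 : Fintype.card (Fin n) ≤ Fintype.card V := by rwa [Fintype.card_fin]
  obtain ⟨e⟩ := Function.Embedding.nonempty_of_card_le h1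
  have : Nonempty (Fin n) := ⟨⟨0, hn⟩⟩
  have h2 : {x | ∃ c : V → Fin n, Function.Surjective c ∧ x = cost Γ c}.Nonempty :=
    ⟨_, Function.invFun e, Function.invFun_surjective e.injective, rfl⟩
  obtain ⟨c, hc, hx⟩ := h2.csInf_mem finite_costs
  exact ⟨c, hc, hx.symm⟩

/-- the automorphism group -/
def Aut (Γ : SimpleGraph V) : Subgroup (Equiv.Perm V) where
  carrier := {g | ∀ u v, Γ.Adj (g u) (g v) ↔ Γ.Adj u v}
  mul_mem' := by
    intro g k hg hk u v
    rw [Equiv.Perm.mul_apply, Equiv.Perm.mul_apply, hg, hk]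
  one_mem' := fun _ _ => Iff.rfl
  inv_mem' := by
    intro g hg u v
    rw [← hg]
    simp

lemma aut_adj (g : Aut Γ) (u v : V) : Γ.Adj (g • u) (g • v) ↔ Γ.Adj u v := g.2 u v

/-- from automorphisms of graphs -/
def toAut (g : Γ ≃g Γ) : Aut Γ := ⟨g.toEquiv, fun _ _ => g.map_rel_iff⟩

lemma aut_trans (ht : VertexTransitive Γ) (u v : V) : ∃ g : Aut Γ, g • u = v := by
  obtain ⟨g, hg⟩ := ht u v
  exact ⟨toAut g, hg⟩

lemma high_hway (hn : 0 < n + 1) : High Γ n (hway Γ (n + 1)) := by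
  intro κ _ hκ c hc
  let e : κ ≃ Fin (n + 1) := Fintype.equivFinOfCardEq hκ
  have hc' : Function.Surjective (e ∘ c) := e.surjective.comp hc
  obtain ⟨i, hi⟩ := exists_ratio (Γ := Γ) hn (e ∘ c) hc'
  refine ⟨e.symm i, ?_⟩
  have h1 : fib c (e.symm i) = fib (e ∘ c) i := by
    ext v
    rw [mem_fib, mem_fib, Function.comp_apply]
    exact e.eq_symm_apply
  rw [h1, ← hi]
  exact mul_le_mul_of_nonneg_right (hway_le _ hc') (Nat.cast_nonneg _)

lemma hyp_of_realizer (a : V → Fin n) (ha : IsRealizer Γ a)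
    (hgap : 6 * hway Γ n < hway Γ (n + 1)) : Hyp Γ n a (hway Γ n) (hway Γ (n + 1)) where
  surj := ha.1
  low := fun i => by
    rw [← ha.2]
    exact ratio_le_cost a ha.1 i
  high := high_hway (Nat.succ_pos n)
  h0 := hway_nonneg
  gap := hgap

lemma isSystem_of (a : V → Fin n) (ha : Function.Surjective a)
    (h : ∀ (g : Aut Γ) (u v : V), a (g • u) = a (g • v) ↔ a u = a v) : IsSystem Γ a := by
  refine ⟨ha, fun g i => ?_⟩
  obtain ⟨u, hu⟩ := ha i
  refine ⟨a (g u), ?_⟩
  ext w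
  constructor
  · rintro ⟨v, hv, rfl⟩
    have : a (toAut g • v) = a (toAut g • u) := (h (toAut g) v u).mpr (hv.trans hu.symm)
    exact this
  · intro hw
    refine ⟨g.symm w, ?_, g.apply_symm_apply w⟩
    have h1 : a (toAut g • (g.symm w)) = a (toAut g • u) := by
      change a (g (g.symm w)) = a (g u)
      rw [g.apply_symm_apply]
      exact hw
    exact ((h (toAut g) _ u).mp h1).trans hu

/-- If `h_{n+1} > 6 h_n` then each realizer of `h_n` is a system of imprimitivity. -/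
theorem realizers (ht : VertexTransitive Γ) (hn : 0 < n)
    (hgap : 6 * hway Γ n < hway Γ (n + 1)) (a : V → Fin n) (ha : IsRealizer Γ a) :
    IsSystem Γ a := by
  let _ : Fintype (Aut Γ) := Fintype.ofFinite _
  refine isSystem_of a ha.1 fun g u v => realizer_system (G := Aut Γ) aut_adj (aut_trans ht)
    (hyp_of_realizer a ha hgap) (fun c hc => ?_) g u v
  obtain ⟨i, hi⟩ := exists_ratio (Γ := Γ) hn c hc
  refine ⟨i, ?_⟩
  rw [← hi]
  exact mul_le_mul_of_nonneg_right (hway_le _ hc) (Nat.cast_nonneg _)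

end bridge

end Pool.Agent.Q259.MW
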