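import Pool.Agent.Q259.MW.Cls

/-!
# The majority class of a vertex
-/

set_option autoImplicit false
set_option linter.unusedSectionVars false

open scoped Classical
open Finset

noncomputable section

namespace Pool.Agent.Q259.MW

section main

variable {V : Type} [Fintype V] {Γ : SimpleGraph V} {G : Type} [Group G] [Fintype G]
  [MulAction G V] {n : ℕ} {a : V → Fin n} {h H : ℝ}

/-- neighbours of `u` separated from `u` by the translate of the partition by `g` -/
def qd (Γ : SimpleGraph V) (a : V → Fin n) (g : G) (u : V) : ℕ :=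
  dg Γ (fun u v => a (g⁻¹ • v) ≠ a (g⁻¹ • u)) u

variable (hadj : ∀ (g : G) (u v : V), Γ.Adj (g • u) (g • v) ↔ Γ.Adj u v)
  (htr : ∀ u v : V, ∃ g : G, g • u = v) (hy : Hyp Γ n a h H)

omit [Fintype G] in
include hadj in
lemma qd_smul (k g : G) (u : V) : qd Γ a g (k • u) = qd Γ a (k⁻¹ * g) u := by
  unfold qd
  rw [dg_smul hadj]
  unfold dg
  congr 1
  ext v
  simp only [mul_inv_rev, inv_inv, mul_smul]

/-- the sum over the group -/
def Qs (Γ : SimpleGraph V) (G : Type) [Group G] [Fintype G] [MulAction G V] (a : V → Fin n)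
    (u : V) : ℕ := ∑ g : G, qd Γ a g u

include hadj in
lemma Qs_smul (k : G) (u : V) : Qs Γ G a (k • u) = Qs Γ G a u := by
  unfold Qs
  simp_rw [qd_smul hadj]
  exact Fintype.sum_equiv (Equiv.mulLeft k⁻¹) _ _ fun g => rfl

/-- sums of functions invariant up to reindexing: if `f` is constant on `V` -/
lemma const_of_tr {f : V → ℕ} (htr : ∀ u v : V, ∃ g : G, g • u = v)
    (hf : ∀ (g : G) v, f (g • v) = f v) (v : V) : Fintype.card V * f v = ∑ w, f w := by
  have : ∀ w, f w = f v := by
    intro w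
    obtain ⟨g, rfl⟩ := htr v w
    exact hf g v
  simp_rw [this]
  rw [sum_const, card_univ, smul_eq_mul]

lemma sum_smul_univ {M : Type} [AddCommMonoid M] (g : G) (f : V → M) :
    ∑ v, f (g • v) = ∑ v, f v :=
  Fintype.sum_equiv (MulAction.toPerm g) _ _ fun _ => rfl

include hadj in
lemma sum_qd (g : G) : ∑ u, qd Γ a g u = ∑ u, qd Γ a (1 : G) u := by
  rw [← sum_smul_univ g]
  simp_rw [qd_smul hadj, inv_mul_cancel]

omit [Fintype G] in
lemma sum_qd_fib (i : Fin n) : ∑ u ∈ fib a i, qd Γ a (1 : G) u = bd Γ (fib a i) := by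
  rw [bd_eq_sum]
  refine sum_congr rfl fun u hu => ?_
  unfold qd dg
  congr 1
  ext v
  simp only [mem_filter, mem_univ, true_and, inv_one, one_smul, mem_fib]
  rw [mem_fib.mp hu]

lemma sum_fib {M : Type} [AddCommMonoid M] {ι : Type} [Fintype ι] (c : V → ι) (f : V → M) :
    ∑ i, ∑ v ∈ fib c i, f v = ∑ v, f v := by
  unfold fib
  exact sum_fiberwise _ _ _

omit [Fintype G] in
include hy in
lemma sum_qd_le : ((∑ u, qd Γ a (1 : G) u : ℕ) : ℝ) ≤ h * Fintype.card V := by
  rw [← sum_fib a, ← sum_card_fib a]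
  simp_rw [sum_qd_fib]
  push_cast
  rw [mul_sum]
  exact sum_le_sum fun i _ => hy.low i

include hadj htr hy in
lemma Qs_le (u : V) : (Qs Γ G a u : ℝ) ≤ h * Fintype.card G := by
  have h1 := const_of_tr htr (Qs_smul hadj (a := a)) u
  have h2 : ∑ w, Qs Γ G a w = Fintype.card G * ∑ w, qd Γ a (1 : G) w := by
    unfold Qs
    rw [sum_comm]
    simp_rw [sum_qd hadj]
    rw [sum_const, card_univ, smul_eq_mul]
  have h3 := sum_qd_le (G := G) hy
  have h4 : (Fintype.card V : ℝ) * Qs Γ G a u = Fintype.card G * ((∑ w, qd Γ a (1 : G) w : ℕ) : ℝ) := by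
    rw [h2] at h1
    exact_mod_cast h1
  have h5 : (0 : ℝ) < Fintype.card V := by
    haveI : Nonempty V := ⟨u⟩
    exact_mod_cast Fintype.card_pos
  have h6 : (0 : ℝ) ≤ Fintype.card G := Nat.cast_nonneg _
  have h7 : (Fintype.card V : ℝ) * Qs Γ G a u ≤ Fintype.card V * (h * Fintype.card G) := by
    rw [h4]
    calc (Fintype.card G : ℝ) * ((∑ w, qd Γ a (1 : G) w : ℕ) : ℝ)
        ≤ Fintype.card G * (h * Fintype.card V) := mul_le_mul_of_nonneg_left h3 h6
      _ = _ := by ring
  exact le_of_mul_le_mul_left h7 h5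

omit [Fintype G] in
include hadj hy in
/-- the vertices of the part `i` whose class changes under `g` -/
lemma changed_le (g : G) (i : Fin n) :
    H * (((fib a i).filter fun v => lab hadj hy g v ≠ lab hadj hy 1 v).card : ℝ) ≤
      ((∑ u ∈ fib a i, dg Γ (fun u v => a v ≠ a u ∨ a (g⁻¹ • v) ≠ a (g⁻¹ • u)) u : ℕ) : ℝ) := by
  have hH : 0 < H := by
    have := hy.h0
    have := hy.gap
    linarith
  have e1 : St a ((1 : G), i) = fib a i := by
    unfold St
    exact tr_one _
  have l1 : ∀ v, a v = i → lab hadj hy 1 v = Quotient.mk _ ((1 : G), i) := by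
    intro v hv
    unfold lab
    rw [inv_one, one_smul, hv]
  by_cases hex : ∃ j, Rel Γ a H ((1 : G), i) (g, j)
  · obtain ⟨j, hj⟩ := hex
    have h1 := rel_sdiff hadj hy hj
    rw [e1] at h1
    have e2 : ((fib a i).filter fun v => lab hadj hy g v ≠ lab hadj hy 1 v) =
        fib a i \ St a (g, j) := by
      ext v
      rw [mem_filter, mem_sdiff, mem_fib, mem_St]
      refine and_congr_right fun hv => not_congr ?_
      rw [l1 v hv, lab_eq_mk]
      constructor
      · intro hr
        exact rel_same (rel_trans hadj hy hr hj)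
      · intro h2
        have h2' : a (g⁻¹ • v) = j := h2
        rw [h2']
        exact rel_symm hj
    rw [e2]
    refine h1.trans ?_
    rw [bd_eq_sum]
    have h2 : ∑ u ∈ fib a i \ St a (g, j), dg Γ (fun _ v => v ∉ fib a i \ St a (g, j)) u ≤
        ∑ u ∈ fib a i \ St a (g, j),
          dg Γ (fun u v => a v ≠ a u ∨ a (g⁻¹ • v) ≠ a (g⁻¹ • u)) u := by
      refine sum_le_sum fun u hu => dg_mono fun v hv => ?_
      rw [mem_sdiff, mem_fib, mem_St] at hu hv
      change ¬ (a v = i ∧ ¬ a (g⁻¹ • v) = j) at hv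
      change a u = i ∧ ¬ a (g⁻¹ • u) = j at hu
      by_cases h3 : a v = i
      · right
        intro h4
        exact hv ⟨h3, fun h5 => hu.2 (h4.symm.trans h5)⟩
      · left
        rw [hu.1]
        exact h3
    have h3 := h2.trans (sum_le_sum_of_subset (sdiff_subset (s := fib a i) (t := St a (g, j))))
    exact_mod_cast h3
  · push Not at hex
    have h1 : ∀ j, H * ((fib a i ∩ St a (g, j)).card : ℝ) ≤ bd Γ (fib a i ∩ St a (g, j)) := by
      intro j
      have := hex j
      unfold Rel at this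
      rw [not_lt, e1] at this
      exact this
    have h2 : H * ((fib a i).card : ℝ) ≤
        ((∑ u ∈ fib a i, dg Γ (fun u v => a v ≠ a u ∨ a (g⁻¹ • v) ≠ a (g⁻¹ • u)) u : ℕ) : ℝ) := by
      have h3 : ∀ f : V → ℕ, ∑ u ∈ fib a i, f u = ∑ j, ∑ u ∈ fib a i ∩ St a (g, j), f u := by
        intro f
        rw [← sum_fiberwise (fib a i) (fun u => a (g⁻¹ • u)) f]
        refine sum_congr rfl fun j _ => ?_
        refine sum_congr ?_ fun _ _ => rfl
        ext v
        rw [mem_filter, mem_inter, mem_St]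
      have h4 : ((fib a i).card : ℝ) = ∑ j, ((fib a i ∩ St a (g, j)).card : ℝ) := by
        have := h3 fun _ => 1
        simp only [sum_const, smul_eq_mul, mul_one] at this
        exact_mod_cast this
      rw [h4, mul_sum, h3]
      push_cast
      refine sum_le_sum fun j _ => (h1 j).trans ?_
      rw [bd_eq_sum]
      push_cast
      refine sum_le_sum fun u hu => ?_
      have : dg Γ (fun _ v => v ∉ fib a i ∩ St a (g, j)) u ≤
          dg Γ (fun u v => a v ≠ a u ∨ a (g⁻¹ • v) ≠ a (g⁻¹ • u)) u := by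
        refine dg_mono fun v hv => ?_
        rw [mem_inter, mem_fib, mem_St] at hu hv
        change ¬ (a v = i ∧ a (g⁻¹ • v) = j) at hv
        change a u = i ∧ a (g⁻¹ • u) = j at hu
        rw [hu.1, hu.2]
        tauto
      exact_mod_cast this
    refine le_trans ?_ h2
    refine mul_le_mul_of_nonneg_left ?_ hH.le
    exact_mod_cast card_filter_le _ _

/-- the number of `g` for which the class of `v` changes -/
def Rs (v : V) : ℕ := (univ.filter fun g : G => lab hadj hy g v ≠ lab hadj hy 1 v).card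

include htr in
lemma sum_Rs_fib (i : Fin n) :
    H * ((∑ v ∈ fib a i, Rs hadj hy v : ℕ) : ℝ) ≤ 2 * h * Fintype.card G * (fib a i).card := by
  have e1 : ∑ v ∈ fib a i, Rs hadj hy v =
      ∑ g : G, ((fib a i).filter fun v => lab hadj hy g v ≠ lab hadj hy 1 v).card := by
    unfold Rs
    simp_rw [card_filter]
    exact sum_comm
  rw [e1]
  push_cast
  rw [mul_sum]
  have h1 : ∀ g : G, H * (((fib a i).filter fun v => lab hadj hy g v ≠ lab hadj hy 1 v).card : ℝ) ≤
      ((∑ u ∈ fib a i, (qd Γ a (1 : G) u + qd Γ a g u) : ℕ) : ℝ) := by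
    intro g
    refine (changed_le hadj hy g i).trans ?_
    have : ∑ u ∈ fib a i, dg Γ (fun u v => a v ≠ a u ∨ a (g⁻¹ • v) ≠ a (g⁻¹ • u)) u ≤
        ∑ u ∈ fib a i, (qd Γ a (1 : G) u + qd Γ a g u) := by
      refine sum_le_sum fun u _ => ?_
      refine (dg_or_le (fun u v => a v ≠ a u) (fun u v => a (g⁻¹ • v) ≠ a (g⁻¹ • u)) u).trans ?_
      have e : dg Γ (fun u v => a v ≠ a u) u = qd Γ a (1 : G) u := by
        unfold qd
        simp only [inv_one, one_smul]
      rw [e]
      rfl
    exact_mod_cast this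
  refine (sum_le_sum fun g _ => h1 g).trans ?_
  have e2 : ∑ g : G, ((∑ u ∈ fib a i, (qd Γ a (1 : G) u + qd Γ a g u) : ℕ) : ℝ) =
      Fintype.card G * (bd Γ (fib a i) : ℝ) + ∑ u ∈ fib a i, (Qs Γ G a u : ℝ) := by
    have : ∑ g : G, ∑ u ∈ fib a i, (qd Γ a (1 : G) u + qd Γ a g u) =
        Fintype.card G * bd Γ (fib a i) + ∑ u ∈ fib a i, Qs Γ G a u := by
      simp_rw [sum_add_distrib]
      rw [sum_qd_fib, sum_const, card_univ, smul_eq_mul, sum_comm]
      rfl
    exact_mod_cast this
  rw [e2]
  have h2 := hy.low i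
  have h3 : ∑ u ∈ fib a i, (Qs Γ G a u : ℝ) ≤ (fib a i).card * (h * Fintype.card G) := by
    rw [← nsmul_eq_mul]
    exact sum_le_card_nsmul _ _ _ fun u _ => Qs_le hadj htr hy u
  have h4 : (0 : ℝ) ≤ Fintype.card G := Nat.cast_nonneg _
  nlinarith [mul_le_mul_of_nonneg_left h2 h4]

lemma Rs_smul (g : G) (v : V) :
    Rs hadj hy (g⁻¹ • v) = (univ.filter fun k : G => lab hadj hy k v ≠ lab hadj hy g v).card := by
  unfold Rs
  refine card_bij (fun k _ => g * k) ?_ ?_ ?_
  · intro k hk
    rw [mem_filter] at hk ⊢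
    refine ⟨mem_univ _, fun h' => hk.2 ?_⟩
    apply ak_inj hadj hy g
    rw [← lab_mul, ← lab_mul, smul_inv_smul, mul_one]
    exact h'
  · intro k _ k' _ h'
    exact mul_left_cancel h'
  · intro k hk
    rw [mem_filter] at hk
    refine ⟨g⁻¹ * k, ?_, mul_inv_cancel_left g k⟩
    rw [mem_filter]
    refine ⟨mem_univ _, fun h' => hk.2 ?_⟩
    have := congrArg (ak hadj hy g) h'
    rwa [← lab_mul, ← lab_mul, smul_inv_smul, mul_one, mul_inv_cancel_left] at this

/-- `κ` is the class of `v` for most translates -/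
def Good (v : V) (κ : KK hadj hy) : Prop :=
  H * ((univ.filter fun k : G => lab hadj hy k v ≠ κ).card : ℝ) ≤ 2 * h * Fintype.card G

include htr in
lemma exists_good (v : V) : ∃ κ, Good hadj hy v κ := by
  have hV : (0 : ℝ) < Fintype.card V := by
    haveI : Nonempty V := ⟨v⟩
    exact_mod_cast Fintype.card_pos
  have hG : (0 : ℝ) < Fintype.card G := by exact_mod_cast Fintype.card_pos
  by_contra hcon
  push Not at hcon
  have h1 : ∀ g : G, 2 * h * Fintype.card G < H * (Rs hadj hy (g⁻¹ • v) : ℝ) := by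
    intro g
    have := hcon (lab hadj hy g v)
    unfold Good at this
    rw [not_le, ← Rs_smul] at this
    exact this
  -- the function `v ↦ ∑ g, Rs (g⁻¹ v)` is constant
  let T : V → ℕ := fun v => ∑ g : G, Rs hadj hy (g⁻¹ • v)
  have hT : ∀ (k : G) v, T (k • v) = T v := by
    intro k v
    refine Fintype.sum_equiv (Equiv.mulLeft k⁻¹) _ _ fun g => ?_
    change Rs hadj hy (g⁻¹ • k • v) = Rs hadj hy ((k⁻¹ * g)⁻¹ • v)
    rw [mul_inv_rev, inv_inv, mul_smul]
  have h2 := const_of_tr htr hT v
  have h3 : ∑ w, T w = Fintype.card G * ∑ w, Rs hadj hy w := by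
    rw [sum_comm]
    simp_rw [sum_smul_univ]
    rw [sum_const, card_univ, smul_eq_mul]
  have h4 : H * ((∑ w, Rs hadj hy w : ℕ) : ℝ) ≤ 2 * h * Fintype.card G * Fintype.card V := by
    rw [← sum_fib a, ← sum_card_fib a]
    push_cast
    rw [mul_sum, mul_sum]
    refine sum_le_sum fun i _ => ?_
    have := sum_Rs_fib hadj htr hy i
    push_cast at this
    exact this
  have h5 : (Fintype.card V : ℝ) * T v = Fintype.card G * ((∑ w, Rs hadj hy w : ℕ) : ℝ) := by
    rw [h3] at h2
    exact_mod_cast h2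
  have h6 : (Fintype.card G : ℝ) * (2 * h * Fintype.card G) < H * (T v : ℝ) := by
    have e : H * (T v : ℝ) = ∑ g : G, H * (Rs hadj hy (g⁻¹ • v) : ℝ) := by
      change H * ((∑ g : G, Rs hadj hy (g⁻¹ • v) : ℕ) : ℝ) = _
      push_cast
      rw [mul_sum]
    rw [e]
    have : (Fintype.card G : ℝ) * (2 * h * Fintype.card G) = ∑ _g : G, 2 * h * Fintype.card G := by
      rw [sum_const, card_univ, nsmul_eq_mul]
    rw [this]
    exact sum_lt_sum_of_nonempty univ_nonempty fun g _ => h1 g
  have h7 := mul_lt_mul_of_pos_left h6 hV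
  have h8 : (Fintype.card V : ℝ) * (H * T v) =
      Fintype.card G * (H * ((∑ w, Rs hadj hy w : ℕ) : ℝ)) := by
    linear_combination H * h5
  rw [h8] at h7
  have h9 := mul_le_mul_of_nonneg_left h4 hG.le
  linarith

lemma good_unique {v : V} {κ κ' : KK hadj hy} (h1 : Good hadj hy v κ) (h2 : Good hadj hy v κ') :
    κ = κ' := by
  by_contra hne
  unfold Good at h1 h2
  have h3 : Fintype.card G ≤ (univ.filter fun k : G => lab hadj hy k v ≠ κ).card +
      (univ.filter fun k : G => lab hadj hy k v ≠ κ').card := by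
    rw [← card_univ]
    refine le_trans (card_le_card ?_) (card_union_le _ _)
    intro k _
    rw [mem_union, mem_filter, mem_filter]
    by_cases h4 : lab hadj hy k v = κ
    · right
      exact ⟨mem_univ _, fun h5 => hne (h4.symm.trans h5)⟩
    · left
      exact ⟨mem_univ _, h4⟩
  have h4 : (Fintype.card G : ℝ) ≤ ((univ.filter fun k : G => lab hadj hy k v ≠ κ).card : ℝ) +
      (univ.filter fun k : G => lab hadj hy k v ≠ κ').card := by exact_mod_cast h3
  have hG : (0 : ℝ) < Fintype.card G := by exact_mod_cast Fintype.card_pos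
  have := hy.h0
  have := hy.gap
  nlinarith

/-- the majority class -/
def mj (v : V) : KK hadj hy := (exists_good hadj htr hy v).choose

lemma mj_good (v : V) : Good hadj hy v (mj hadj htr hy v) := (exists_good hadj htr hy v).choose_spec

lemma mj_eq {v : V} {κ : KK hadj hy} (h1 : Good hadj hy v κ) : mj hadj htr hy v = κ :=
  good_unique hadj hy (mj_good hadj htr hy v) h1

lemma mj_smul (g : G) (v : V) : mj hadj htr hy (g • v) = ak hadj hy g (mj hadj htr hy v) := by
  apply mj_eq
  have h1 := mj_good hadj htr hy v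
  unfold Good at h1 ⊢
  have e : (univ.filter fun k : G => lab hadj hy k (g • v) ≠ ak hadj hy g (mj hadj htr hy v)).card =
      (univ.filter fun k : G => lab hadj hy k v ≠ mj hadj htr hy v).card := by
    symm
    refine card_bij (fun k _ => g * k) ?_ ?_ ?_
    · intro k hk
      rw [mem_filter] at hk ⊢
      rw [lab_mul]
      exact ⟨mem_univ _, fun h' => hk.2 (ak_inj hadj hy g h')⟩
    · intro k _ k' _ h'
      exact mul_left_cancel h'
    · intro k hk
      rw [mem_filter] at hk
      refine ⟨g⁻¹ * k, ?_, mul_inv_cancel_left g k⟩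
      rw [mem_filter]
      refine ⟨mem_univ _, fun h' => hk.2 ?_⟩
      rw [← h', ← lab_mul, mul_inv_cancel_left]
  rw [e]
  exact h1

lemma mj_surj : Function.Surjective (mj hadj htr hy) := by
  -- the classes of the parts themselves are attained
  have h1 : ∀ i : Fin n, ∃ v, mj hadj htr hy v = Quotient.mk _ ((1 : G), i) := by
    intro i
    have h2 := sum_Rs_fib hadj htr hy i
    push_cast at h2
    rw [mul_sum, mul_comm, ← nsmul_eq_mul] at h2
    obtain ⟨v, hv, h3⟩ := exists_le_of_sum_le (card_pos.mp (fib_pos hy.surj i))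
      (h2.trans (le_of_eq (sum_const _).symm))
    refine ⟨v, mj_eq hadj htr hy ?_⟩
    have e : Quotient.mk _ ((1 : G), i) = lab hadj hy 1 v := by
      unfold lab
      rw [inv_one, one_smul, mem_fib.mp hv]
    rw [e]
    exact h3
  intro κ
  induction κ using Quotient.inductionOn with
  | _ x =>
    obtain ⟨v, hv⟩ := h1 x.2
    refine ⟨x.1 • v, ?_⟩
    rw [mj_smul, hv]
    change Quotient.mk _ (x.1 * 1, x.2) = Quotient.mk _ x
    rw [mul_one]

lemma mj_smul_eq (g : G) (u v : V) :
    mj hadj htr hy (g • u) = mj hadj htr hy (g • v) ↔ mj hadj htr hy u = mj hadj htr hy v := by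
  rw [mj_smul, mj_smul]
  exact (ak_inj hadj hy g).eq_iff

/-- the number of neighbours in other blocks -/
lemma out_le (u : V) :
    (dg Γ (fun u v => mj hadj htr hy v ≠ mj hadj htr hy u) u : ℝ) ≤ 3 * h := by
  have hG : (0 : ℝ) < Fintype.card G := by exact_mod_cast Fintype.card_pos
  have h0 := hy.h0
  have hgap := hy.gap
  have hH : 0 < H := by linarith
  have key : ∀ v, mj hadj htr hy v ≠ mj hadj htr hy u → (H - 4 * h) * Fintype.card G ≤
      H * ((univ.filter fun g : G => a (g⁻¹ • v) ≠ a (g⁻¹ • u)).card : ℝ) := by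
    intro v hv
    have h1 := mj_good hadj htr hy v
    have h2 := mj_good hadj htr hy u
    unfold Good at h1 h2
    have h3 : Fintype.card G ≤ (univ.filter fun g : G => a (g⁻¹ • v) ≠ a (g⁻¹ • u)).card +
        ((univ.filter fun k : G => lab hadj hy k v ≠ mj hadj htr hy v).card +
        (univ.filter fun k : G => lab hadj hy k u ≠ mj hadj htr hy u).card) := by
      rw [← card_univ]
      refine le_trans (card_le_card (t := (univ.filter fun g : G => a (g⁻¹ • v) ≠ a (g⁻¹ • u)) ∪
        ((univ.filter fun k : G => lab hadj hy k v ≠ mj hadj htr hy v) ∪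
        (univ.filter fun k : G => lab hadj hy k u ≠ mj hadj htr hy u))) ?_)
        ((card_union_le _ _).trans (Nat.add_le_add_left (card_union_le _ _) _))
      intro k _
      rw [mem_union, mem_union, mem_filter, mem_filter, mem_filter]
      by_contra hcon
      push Not at hcon
      obtain ⟨c1, c2, c3⟩ := hcon
      have c1' := c1 (mem_univ _)
      rw [← lab_same hadj hy] at c1'
      exact hv ((c2 (mem_univ _)).symm.trans (c1'.trans (c3 (mem_univ _))))
    have h4 : (Fintype.card G : ℝ) ≤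
        ((univ.filter fun g : G => a (g⁻¹ • v) ≠ a (g⁻¹ • u)).card : ℝ) +
        (((univ.filter fun k : G => lab hadj hy k v ≠ mj hadj htr hy v).card : ℝ) +
        (univ.filter fun k : G => lab hadj hy k u ≠ mj hadj htr hy u).card) := by exact_mod_cast h3
    nlinarith
  have h1 : (H - 4 * h) * Fintype.card G *
      (dg Γ (fun u v => mj hadj htr hy v ≠ mj hadj htr hy u) u : ℝ) ≤ H * Qs Γ G a u := by
    have e1 : Qs Γ G a u = ∑ v ∈ univ.filter (fun v => Γ.Adj u v),
        (univ.filter fun g : G => a (g⁻¹ • v) ≠ a (g⁻¹ • u)).card := by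
      unfold Qs qd dg
      simp_rw [card_filter]
      rw [sum_comm, sum_filter]
      refine sum_congr rfl fun v _ => ?_
      by_cases h : Γ.Adj u v
      · simp [h]
      · simp [h]
    rw [e1]
    push_cast
    rw [mul_sum]
    have h2 : ∑ v ∈ univ.filter (fun v => Γ.Adj u v ∧ mj hadj htr hy v ≠ mj hadj htr hy u),
        (H - 4 * h) * (Fintype.card G : ℝ) ≤ ∑ v ∈ univ.filter (fun v => Γ.Adj u v),
        H * ((univ.filter fun g : G => a (g⁻¹ • v) ≠ a (g⁻¹ • u)).card : ℝ) := by
      refine (sum_le_sum fun v hv => key v (mem_filter.mp hv).2.2).trans ?_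
      refine sum_le_sum_of_subset_of_nonneg ?_ fun v _ _ => by positivity
      intro v hv
      rw [mem_filter] at hv ⊢
      exact ⟨hv.1, hv.2.1⟩
    rw [sum_const, nsmul_eq_mul] at h2
    have e3 : (dg Γ (fun u v => mj hadj htr hy v ≠ mj hadj htr hy u) u : ℝ) =
        ((univ.filter (fun v => Γ.Adj u v ∧ mj hadj htr hy v ≠ mj hadj htr hy u)).card : ℝ) := by
      unfold dg
      congr 2
      ext v
      simp only [mem_filter]
    rw [e3]
    linarith
  have h2 := Qs_le hadj htr hy u
  have h3 : (H - 4 * h) * (dg Γ (fun u v => mj hadj htr hy v ≠ mj hadj htr hy u) u : ℝ) ≤ H * h := by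
    have h4 := h1.trans (mul_le_mul_of_nonneg_left h2 hH.le)
    have h5 : Fintype.card G * ((H - 4 * h) *
        (dg Γ (fun u v => mj hadj htr hy v ≠ mj hadj htr hy u) u : ℝ)) ≤
        Fintype.card G * (H * h) := by linarith
    exact le_of_mul_le_mul_left h5 hG
  have h4 : H * h ≤ (H - 4 * h) * (3 * h) := by nlinarith
  exact le_of_mul_le_mul_left (h3.trans h4) (by linarith)

end main

end Pool.Agent.Q259.MW
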