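import Pool.Agent.Q259.MW.Blk

/-!
# Every realizer is the block system
-/

set_option autoImplicit false
set_option linter.unusedSectionVars false

open scoped Classical
open Finset

noncomputable section

namespace Pool.Agent.Q259.MW

section cnt

variable {V : Type} [Fintype V] {Γ : SimpleGraph V}

lemma dg_congr {p q : V → V → Prop} {u : V} (h : ∀ v, p u v ↔ q u v) : dg Γ p u = dg Γ q u :=
  le_antisymm (dg_mono fun v => (h v).mp) (dg_mono fun v => (h v).mpr)

lemma sum_cnt {ι : Type} [Fintype ι] (b : V → ι) (p : V → V → Prop) :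
    ∑ κ, cnt Γ (fun u v => p u v ∧ b u = κ ∧ b v = κ) = cnt Γ fun u v => p u v ∧ b u = b v := by
  unfold cnt
  rw [card_eq_sum_card_fiberwise (f := fun x : V × V => b x.1) (t := univ)
    (fun x _ => mem_univ _)]
  refine sum_congr rfl fun κ _ => ?_
  congr 1
  ext x
  simp only [mem_filter, mem_univ, true_and]
  constructor
  · rintro ⟨h1, h2, h3, h4⟩
    exact ⟨⟨h1, h2, h3.trans h4.symm⟩, h3⟩
  · rintro ⟨⟨h1, h2, h3⟩, h4⟩
    exact ⟨h1, h2, h4, h3.symm.trans h4⟩

end cnt

section main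

variable {V : Type} [Fintype V] {Γ : SimpleGraph V} {n : ℕ} {a b : V → Fin n} {h H : ℝ} {d : ℕ}

/-- pairs inside a block -/
lemma inner (hy : Hyp Γ n a h H) (hb : Function.Surjective b)
    (hd : ∀ u, dg Γ (fun u v => b v ≠ b u) u = d) (hd3 : (d : ℝ) ≤ 3 * h) (κ : Fin n)
    (X : Finset V) (hX : 2 * (fib b κ ∩ X).card ≤ (fib b κ).card) :
    (H - d) * ((fib b κ ∩ X).card : ℝ) ≤
      cnt Γ fun u v => (u ∈ X ∧ v ∉ X) ∧ b u = κ ∧ b v = κ := by
  have h0 := hy.h0
  have hgap := hy.gap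
  have low : ∀ i, (bd Γ (fib b i) : ℝ) ≤ (3 * h) * (fib b i).card := by
    intro i
    rw [bd_eq_sum]
    push_cast
    rw [mul_comm, ← nsmul_eq_mul]
    refine sum_le_card_nsmul _ _ _ fun u hu => le_trans ?_ hd3
    have : dg Γ (fun _ v => v ∉ fib b i) u ≤ dg Γ (fun u v => b v ≠ b u) u := by
      refine dg_mono fun v hv h' => hv ?_
      rw [mem_fib] at hu ⊢
      rw [h', hu]
    rw [hd] at this
    exact_mod_cast this
  have e1 : ∀ Y : Finset V, Y ⊆ fib b κ → bd Γ Y =
      (cnt Γ fun u v => u ∈ Y ∧ v ∉ Y ∧ b v = κ) + d * Y.card := by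
    intro Y hY
    have h1 : (cnt Γ fun u v => u ∈ Y ∧ b v ≠ b u) = d * Y.card := by
      rw [cnt_eq_sum Y fun u v => b v ≠ b u]
      simp_rw [hd]
      rw [sum_const, smul_eq_mul, mul_comm]
    rw [← h1, cnt_add]
    · unfold bd
      congr 1
      funext u v
      apply propext
      constructor
      · rintro ⟨h2, h3⟩
        have h4 := mem_fib.mp (hY h2)
        by_cases h5 : b v = κ
        · exact Or.inl ⟨h2, h3, h5⟩
        · exact Or.inr ⟨h2, fun h6 => h5 (h6.trans h4)⟩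
      · rintro (⟨h2, h3, -⟩ | ⟨h2, h3⟩)
        · exact ⟨h2, h3⟩
        · refine ⟨h2, fun h6 => h3 ?_⟩
          rw [mem_fib.mp (hY h2), mem_fib.mp (hY h6)]
    · rintro u v ⟨h2, h3, h5⟩ ⟨-, h6⟩
      exact h6 (h5.trans (mem_fib.mp (hY h2)).symm)
  have e2 := e1 (fib b κ ∩ X) inter_subset_left
  have e3 := e1 (fib b κ \ X) sdiff_subset
  have e4 : (cnt Γ fun u v => u ∈ fib b κ ∩ X ∧ v ∉ fib b κ ∩ X ∧ b v = κ) =
      cnt Γ fun u v => (u ∈ X ∧ v ∉ X) ∧ b u = κ ∧ b v = κ := by
    congr 1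
    funext u v
    apply propext
    rw [mem_inter, mem_inter, mem_fib, mem_fib]
    tauto
  have e5 : (cnt Γ fun u v => u ∈ fib b κ \ X ∧ v ∉ fib b κ \ X ∧ b v = κ) =
      cnt Γ fun u v => (u ∈ X ∧ v ∉ X) ∧ b u = κ ∧ b v = κ := by
    rw [← cnt_swap fun u v => (u ∈ X ∧ v ∉ X) ∧ b u = κ ∧ b v = κ]
    congr 1
    funext u v
    apply propext
    rw [mem_sdiff, mem_sdiff, mem_fib, mem_fib]
    tauto
  rw [e4] at e2
  rw [e5] at e3
  have e2' : (bd Γ (fib b κ ∩ X) : ℝ) =
      (cnt Γ fun u v => (u ∈ X ∧ v ∉ X) ∧ b u = κ ∧ b v = κ) + d * (fib b κ ∩ X).card := by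
    exact_mod_cast e2
  have e3' : (bd Γ (fib b κ \ X) : ℝ) =
      (cnt Γ fun u v => (u ∈ X ∧ v ∉ X) ∧ b u = κ ∧ b v = κ) + d * (fib b κ \ X).card := by
    exact_mod_cast e3
  rcases split hy.high (Fintype.card_fin n) hb low (by linarith) κ X with h1 | h1
  · rw [e2'] at h1
    linarith
  · rw [e3'] at h1
    have h2 := card_sdiff_add_card_inter (fib b κ) X
    have h3 : ((fib b κ ∩ X).card : ℝ) ≤ (fib b κ \ X).card := by
      have : (fib b κ ∩ X).card ≤ (fib b κ \ X).card := by omega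
      exact_mod_cast this
    have h4 : 0 < H - d := by linarith
    nlinarith

theorem eq_of_min (hy : Hyp Γ n a h H) (hb : Function.Surjective b)
    (hd : ∀ u, dg Γ (fun u v => b v ≠ b u) u = d) (hd3 : (d : ℝ) ≤ 3 * h) (hdh : h ≤ d) :
    ∀ u v, a u = a v ↔ b u = b v := by
  have h0 := hy.h0
  have hgap := hy.gap
  have hH : 0 < H := by linarith
  -- each part has more than half of some block
  have c1 : ∀ j, ∃ κ, (fib b κ).card < 2 * (fib b κ ∩ fib a j).card := by
    intro j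
    by_contra hcon
    push Not at hcon
    have h1 : (H - d) * ((fib a j).card : ℝ) ≤ bd Γ (fib a j) := by
      have h2 : (fib a j).card = ∑ κ, (fib b κ ∩ fib a j).card := by
        rw [card_eq_sum_card_fiberwise (f := b) (t := univ) (fun x _ => mem_univ _)]
        refine sum_congr rfl fun κ _ => ?_
        congr 1
        ext v
        rw [mem_filter, mem_inter, mem_fib, mem_fib, and_comm]
      rw [h2]
      push_cast
      rw [mul_sum]
      refine (sum_le_sum fun κ _ => inner hy hb hd hd3 κ (fib a j) (hcon κ)).trans ?_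
      have h3 := sum_cnt (Γ := Γ) b fun u v => u ∈ fib a j ∧ v ∉ fib a j
      have h4 : (cnt Γ fun u v => (u ∈ fib a j ∧ v ∉ fib a j) ∧ b u = b v) ≤ bd Γ (fib a j) :=
        cnt_mono fun u v hh => hh.1
      rw [← h3] at h4
      exact_mod_cast h4
    have h2 := hy.low j
    have h3 : (0 : ℝ) < (fib a j).card := by exact_mod_cast fib_pos hy.surj j
    nlinarith
  choose τ hτ using c1
  have τinj : Function.Injective τ := by
    intro j j' hjj
    by_contra hne
    have h1 := hτ j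
    have h2 := hτ j'
    rw [← hjj] at h2
    have h3 : Disjoint (fib b (τ j) ∩ fib a j) (fib b (τ j) ∩ fib a j') := by
      rw [disjoint_left]
      intro v hv hv'
      rw [mem_inter, mem_fib, mem_fib] at hv hv'
      exact hne (hv.2.symm.trans hv'.2)
    have h4 := card_union_of_disjoint h3
    have h5 : ((fib b (τ j) ∩ fib a j) ∪ (fib b (τ j) ∩ fib a j')).card ≤ (fib b (τ j)).card :=
      card_le_card (union_subset inter_subset_left inter_subset_left)
    omega
  have τsurj : Function.Surjective τ := Finite.injective_iff_surjective.mp τinj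
  -- the exceptional vertices
  let X : Finset V := univ.filter fun v => b v ≠ τ (a v)
  have hX : ∀ v, v ∈ X ↔ b v ≠ τ (a v) := fun v => by
    rw [mem_filter]; exact and_iff_right (mem_univ _)
  have c2 : (H - d) * (X.card : ℝ) ≤ cnt Γ fun u v => (u ∈ X ∧ v ∉ X) ∧ b u = b v := by
    have h2 : X.card = ∑ κ, (fib b κ ∩ X).card := by
      rw [card_eq_sum_card_fiberwise (f := b) (t := univ) (fun x _ => mem_univ _)]
      refine sum_congr rfl fun κ _ => ?_
      congr 1
      ext v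
      rw [mem_filter, mem_inter, mem_fib, and_comm]
    rw [h2, ← sum_cnt]
    push_cast
    rw [mul_sum]
    refine sum_le_sum fun κ _ => inner hy hb hd hd3 κ X ?_
    obtain ⟨j, rfl⟩ := τsurj κ
    have h3 : fib b (τ j) ∩ X = fib b (τ j) \ fib a j := by
      ext v
      rw [mem_inter, mem_sdiff, mem_fib, mem_fib, hX]
      refine and_congr_right fun hv => not_congr ?_
      rw [hv]
      exact ⟨fun h => (τinj h).symm, fun h => by rw [h]⟩
    rw [h3]
    have h4 := card_sdiff_add_card_inter (fib b (τ j)) (fib a j)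
    have h5 := hτ j
    omega
  have c3 : 2 * (cnt Γ fun u v => (u ∈ X ∧ v ∉ X) ∧ b u = b v) + d * Fintype.card V ≤
      (cnt Γ fun u v => a u ≠ a v) + 2 * (d * X.card) := by
    -- pairs in different blocks
    have h1 : (cnt Γ fun u v => b v ≠ b u) = d * Fintype.card V := by
      rw [cnt_eq_sum_univ]
      simp_rw [hd]
      rw [sum_const, card_univ, smul_eq_mul, mul_comm]
    have h2 : (cnt Γ fun u v => u ∈ X ∧ b v ≠ b u) = d * X.card := by
      rw [cnt_eq_sum X fun u v => b v ≠ b u]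
      simp_rw [hd]
      rw [sum_const, smul_eq_mul, mul_comm]
    have h3 : (cnt Γ fun u v => v ∈ X ∧ b u ≠ b v) = d * X.card := by
      rw [← h2, ← cnt_swap fun u v => u ∈ X ∧ b v ≠ b u]
    have h4 : (cnt Γ fun u v => b v ≠ b u) ≤ (cnt Γ fun u v => b u ≠ b v ∧ a u ≠ a v) +
        ((cnt Γ fun u v => u ∈ X ∧ b v ≠ b u) + cnt Γ fun u v => v ∈ X ∧ b u ≠ b v) := by
      refine le_trans (cnt_mono (q := fun u v => (b u ≠ b v ∧ a u ≠ a v) ∨
        ((u ∈ X ∧ b v ≠ b u) ∨ (v ∈ X ∧ b u ≠ b v))) ?_)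
        ((cnt_or_le _ _).trans (Nat.add_le_add_left (cnt_or_le _ _) _))
      intro u v huv
      by_cases h5 : a u = a v
      · right
        by_cases h6 : u ∈ X
        · exact Or.inl ⟨h6, huv⟩
        · right
          refine ⟨?_, fun h => huv h.symm⟩
          rw [hX]
          rw [hX, not_not] at h6
          rw [← h5, ← h6]
          exact huv
      · exact Or.inl ⟨fun h => huv h.symm, h5⟩
    have h5 : 2 * (cnt Γ fun u v => (u ∈ X ∧ v ∉ X) ∧ b u = b v) +
        (cnt Γ fun u v => b u ≠ b v ∧ a u ≠ a v) ≤ cnt Γ fun u v => a u ≠ a v := by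
      have e1 := cnt_swap (Γ := Γ) fun u v => (u ∈ X ∧ v ∉ X) ∧ b u = b v
      have e2 : (cnt Γ fun u v => (u ∈ X ∧ v ∉ X) ∧ b u = b v) +
          (cnt Γ fun v u => (u ∈ X ∧ v ∉ X) ∧ b u = b v) =
          cnt Γ fun u v => ((u ∈ X ∧ v ∉ X) ∧ b u = b v) ∨ ((v ∈ X ∧ u ∉ X) ∧ b v = b u) :=
        cnt_add fun u v h h' => h.1.2 h'.1.1
      have e3 : (cnt Γ fun u v => ((u ∈ X ∧ v ∉ X) ∧ b u = b v) ∨ ((v ∈ X ∧ u ∉ X) ∧ b v = b u)) +
          (cnt Γ fun u v => b u ≠ b v ∧ a u ≠ a v) =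
          cnt Γ fun u v => (((u ∈ X ∧ v ∉ X) ∧ b u = b v) ∨ ((v ∈ X ∧ u ∉ X) ∧ b v = b u)) ∨
            (b u ≠ b v ∧ a u ≠ a v) :=
        cnt_add fun u v h h' => h'.1 (h.elim (fun h => h.2) fun h => h.2.symm)
      have e4 : (cnt Γ fun u v => (((u ∈ X ∧ v ∉ X) ∧ b u = b v) ∨ ((v ∈ X ∧ u ∉ X) ∧ b v = b u)) ∨
            (b u ≠ b v ∧ a u ≠ a v)) ≤ cnt Γ fun u v => a u ≠ a v := by
        refine cnt_mono fun u v hh => ?_
        rcases hh with (⟨⟨h6, h7⟩, h8⟩ | ⟨⟨h6, h7⟩, h8⟩) | ⟨-, h6⟩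
        · intro h9
          rw [hX] at h6
          rw [hX, not_not] at h7
          exact h6 (by rw [h8, h7, h9])
        · intro h9
          rw [hX] at h6
          rw [hX, not_not] at h7
          exact h6 (by rw [h8, h7, h9])
        · exact h6
      omega
    omega
  have c4 : ((cnt Γ fun u v => a u ≠ a v : ℕ) : ℝ) ≤ d * Fintype.card V := by
    have h1 : (cnt Γ fun u v => a u ≠ a v) = ∑ j, bd Γ (fib a j) := by
      rw [cnt_eq_sum_univ, ← sum_fib a]
      refine sum_congr rfl fun j _ => ?_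
      rw [bd_eq_sum]
      refine sum_congr rfl fun u hu => dg_congr fun v => ?_
      rw [mem_fib, ← mem_fib.mp hu]
      exact not_congr eq_comm
    rw [h1, ← sum_card_fib a]
    push_cast
    rw [mul_sum]
    refine sum_le_sum fun j _ => (hy.low j).trans ?_
    exact mul_le_mul_of_nonneg_right hdh (Nat.cast_nonneg _)
  have c5 : 2 * ((cnt Γ fun u v => (u ∈ X ∧ v ∉ X) ∧ b u = b v : ℕ) : ℝ) + d * Fintype.card V ≤
      ((cnt Γ fun u v => a u ≠ a v : ℕ) : ℝ) + 2 * (d * X.card) := by exact_mod_cast c3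
  have c6 : (H - 2 * d) * (X.card : ℝ) ≤ 0 := by nlinarith
  have c7 : X.card = 0 := by
    by_contra hne
    have : (0 : ℝ) < X.card := by exact_mod_cast Nat.pos_of_ne_zero hne
    have h8 : 0 < H - 2 * d := by linarith
    have := mul_pos h8 this
    linarith
  rw [card_eq_zero] at c7
  have c8 : ∀ v, b v = τ (a v) := by
    intro v
    by_contra hne
    have := (hX v).mpr hne
    rw [c7] at this
    exact absurd this (notMem_empty v)
  intro u v
  rw [c8, c8]
  exact ⟨fun h => by rw [h], fun h => τinj h⟩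

variable {G : Type} [Group G] [Fintype G] [MulAction G V]

/-- Every partition which realizes the minimum is a system of imprimitivity. -/
theorem realizer_system (hadj : ∀ (g : G) (u v : V), Γ.Adj (g • u) (g • v) ↔ Γ.Adj u v)
    (htr : ∀ u v : V, ∃ g : G, g • u = v) (hy : Hyp Γ n a h H)
    (hmin : ∀ c : V → Fin n, Function.Surjective c →
      ∃ i, h * ((fib c i).card : ℝ) ≤ bd Γ (fib c i)) (g : G) (u v : V) :
    a (g • u) = a (g • v) ↔ a u = a v := by
  obtain ⟨b, hb, hbg, hb3⟩ := exists_system hadj htr hy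
  have hd : ∀ w, dg Γ (fun u v => b v ≠ b u) w = dg Γ (fun u v => b v ≠ b u) u := by
    intro w
    obtain ⟨k, rfl⟩ := htr u w
    rw [dg_smul hadj]
    simp only [ne_eq, hbg]
  have hdh : h ≤ (dg Γ (fun u v => b v ≠ b u) u : ℝ) := by
    obtain ⟨i, hi⟩ := hmin b hb
    have h1 : bd Γ (fib b i) = dg Γ (fun u v => b v ≠ b u) u * (fib b i).card := by
      rw [bd_eq_sum]
      have : ∀ w ∈ fib b i, dg Γ (fun _ v => v ∉ fib b i) w = dg Γ (fun u v => b v ≠ b u) u := by
        intro w hw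
        rw [← hd w]
        refine dg_congr fun v => ?_
        rw [mem_fib, mem_fib.mp hw]
      rw [sum_congr rfl this, sum_const, smul_eq_mul, mul_comm]
    rw [h1] at hi
    push_cast at hi
    have h2 : (0 : ℝ) < (fib b i).card := by exact_mod_cast fib_pos hb i
    exact le_of_mul_le_mul_right hi h2
  have key := eq_of_min hy hb hd (hb3 u) hdh
  rw [key, key]
  exact hbg g u v

end main

end Pool.Agent.Q259.MW
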